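import Pool.Agent.Helper130.DL.Main

/-!
# Dual approximation property and renormings of the predual: all constants close to one

The construction is the one of `Pool.Agent.Helper130.DL.Main` (helper130); here the parameter `r` of
the construction is free, which gives all the constants `lam` in an interval `(1, lam0]`, with a
uniform gap.
-/

set_option autoImplicit false

namespace Pool.Agent.Y620.DL

open Filter Topology Pool.Agent.Helper130.DL

/-- the construction, with the parameter `r` -/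
theorem core (N : Seminorm ℝ (lp (fun _ : ℕ => ℝ) 1)) (s : ℝ) (hN : ∀ y, ‖y‖ ≤ N y)
    (hs0 : 0 < s) (hs1 : s ≤ 1) (hg : Good N s)
    (Φ : Finset (StrongDual ℝ (lp (fun _ : ℕ => ℝ) 1))) (ε0 : ℝ) (hε0 : 0 < ε0)
    (hbad : ∀ T : lp (fun _ : ℕ => ℝ) 1 →L[ℝ] lp (fun _ : ℕ => ℝ) 1,
      FiniteDimensional ℝ (LinearMap.range
        (T : lp (fun _ : ℕ => ℝ) 1 →ₗ[ℝ] lp (fun _ : ℕ => ℝ) 1)) → ‖T‖ ≤ 1 + ε0 →
      (∀ f ∈ Φ, ‖f.comp T - f‖ ≤ ε0) → ¬ Moves N T ((1 - s / 400) * s))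
    (r : ℝ) (hr0 : 0 < r) (hr1 : r ≤ 1 / 4) :
    ∃ (E : Type) (_ : NormedAddCommGroup E) (_ : NormedSpace ℝ E) (_ : CompleteSpace E),
      (∀ Γ : Submodule ℝ (StrongDual ℝ E), FiniteDimensional ℝ Γ → ∀ β : ℝ, 0 < β →
        ((∃ N : Seminorm ℝ E, ∀ x, N x = preN Γ β x) ∧
          (∀ x, ‖x‖ ≤ (1 + 4 * β) * preN Γ β x ∧ preN Γ β x ≤ ‖x‖) ∧
          (∀ f : StrongDual ℝ E,
            IsLUB {t : ℝ | ∃ x, preN Γ β x ≤ 1 ∧ t = |f x|} (dualN Γ β f))) ∧
        HasLAP E (preN Γ β) (1 + (1 - s / 200) * (r * s))) ∧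
      ∀ t : ℝ, 0 ≤ t → t < r * ((1 - s / 400) * s) → t < ε0 →
        ¬ HasLAP (StrongDual ℝ E) (fun f => ‖f‖) (1 + t) := by
  have hrs : 0 < r * s := by positivity
  obtain ⟨E0, _, _, _, e, he⟩ := JB2.exists_E0 (fun p a b ha h1 h2 => JB1.renormed p a b ha h1 h2)
    N hN r hr0 (by linarith)
  obtain ⟨H, hH, hfd, hd⟩ := JHL.exists_H
  obtain ⟨hGm, hGf, hGd, hmem⟩ := JGS.Gs_props e H hH hfd hd
  set c : ℝ := s * (r * s) / 1000 with hc
  have hc0 : 0 < c := by positivity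
  obtain ⟨E, iE1, iE2, iE3, ⟨tw⟩⟩ := exists_tower (Gs e H) hGm hGf hGd c hc0
  refine ⟨E, iE1, iE2, iE3, ?_, ?_⟩
  · intro Γ hΓ β hβ
    refine ⟨JR2.preN_norm Γ hΓ β hβ, ?_⟩
    have hlam : (0:ℝ) < 1 + (1 - s / 200) * (r * s) := by
      have : 0 ≤ (1 - s / 200) * (r * s) := mul_nonneg (by linarith) hrs.le
      linarith
    apply JR1.LAP_of Γ β hβ _ hlam
    intro K hK ε hε
    -- η
    set lam1 : ℝ := 1 + (1 - s / 100) * (r * s) with hlam1
    have hlam1' : 1 ≤ lam1 := by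
      have : 0 ≤ (1 - s / 100) * (r * s) := mul_nonneg (by linarith) hrs.le
      linarith
    have hrs1 : r * s ≤ 1 / 4 := by nlinarith
    obtain ⟨η, hη0, hη1⟩ : ∃ η : ℝ, 0 < η ∧
        (1 + η) * (1 + η) * lam1 ≤ 1 + (1 - s / 200) * (r * s) := by
      refine ⟨s * (r * s) / 1000, by positivity, ?_⟩
      have h3 : 0 < s * (r * s) := by positivity
      have h1 : s * (r * s) / 1000 ≤ 1 / 1000 := by nlinarith
      have h2 : lam1 ≤ 5 / 4 := by
        rw [hlam1]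
        nlinarith
      have h5 : (1 + s * (r * s) / 1000) * (1 + s * (r * s) / 1000) ≤
          1 + 3 * (s * (r * s) / 1000) := by nlinarith
      have h6 : (1 + s * (r * s) / 1000) * (1 + s * (r * s) / 1000) * lam1 ≤
          (1 + 3 * (s * (r * s) / 1000)) * lam1 :=
        mul_le_mul_of_nonneg_right h5 (by linarith)
      have h7 : 3 * (s * (r * s) / 1000) * lam1 ≤ 3 * (s * (r * s) / 1000) * (5 / 4) :=
        mul_le_mul_of_nonneg_left h2 (by positivity)
      have h8 : (1 + 3 * (s * (r * s) / 1000)) * lam1 =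
          lam1 + 3 * (s * (r * s) / 1000) * lam1 := by ring
      have h9 : lam1 = 1 + r * s - s * (r * s) / 100 := by rw [hlam1]; ring
      have h10 : 1 + (1 - s / 200) * (r * s) = 1 + r * s - s * (r * s) / 200 := by ring
      rw [h10]
      linarith
    obtain ⟨M1, hM1⟩ := JPF.perturb tw Γ hΓ β hβ η hη0
    obtain ⟨M2, hM2⟩ := JPK.unif_compact hc0.le tw K hK (ε / 22) (by positivity)
    set M := max M1 M2 with hM
    obtain ⟨Γ', hΓ', hS, hcomp⟩ := hM1 M (le_max_left _ _)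
    obtain ⟨u, hu1, hu2, hu3⟩ := key N hN r hr0 hr1 e he H hH hfd hd s hs0 hs1 hg hc0.le le_rfl
      tw M Γ' hΓ' hS β hβ
    refine ⟨u, hu1, ?_, ?_⟩
    · intro f
      have hnn : 0 ≤ dualN Γ β f := by
        unfold dualN
        have := Metric.infDist_nonneg (x := f) (s := (Γ : Set (StrongDual ℝ E)))
        positivity
      calc dualN Γ β (f.comp u) ≤ (1 + η) * dualN Γ' β (f.comp u) := (hcomp _).2
        _ ≤ (1 + η) * (lam1 * dualN Γ' β f) := by
          exact mul_le_mul_of_nonneg_left (hu2 f) (by positivity)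
        _ ≤ (1 + η) * (lam1 * ((1 + η) * dualN Γ β f)) := by
          apply mul_le_mul_of_nonneg_left _ (by positivity)
          exact mul_le_mul_of_nonneg_left (hcomp f).1 (by positivity)
        _ = ((1 + η) * (1 + η) * lam1) * dualN Γ β f := by ring
        _ ≤ _ := mul_le_mul_of_nonneg_right hη1 hnn
    · intro g hg
      have h1 := hM2 M (le_max_right _ _) g hg
      have h2 := hu3 g
      have h3 : ‖tw.L (g - tw.P M g)‖ ≤ ‖g - tw.P M g‖ := tw.L_norm _
      rw [norm_sub_rev] at h3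
      have h4 : u g - g = (u g - tw.P M g) + (tw.P M g - g) := by abel
      rw [h4]
      refine lt_of_le_of_lt (norm_add_le _ _) ?_
      linarith
  · intro t ht0 ht1 ht2
    exact JD4.dual_fails e tw
      (fun lam h0 h Φ ε hε => JD1.dual_ap (fun V0 hV Φ ε hε => JD1a.adj_approx V0 hV Φ ε hε)
        lam h0 h Φ ε hε)
      (fun u hu => JD2.to_E0 hGm hGd tw u hu) N r hr0
      (fun v hv t ht ε hε h1 Φ h2 => JD3.to_Y N hN r hr0 (by linarith) e he v hv t ht ε hε h1 Φ h2)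
      ((1 - s / 400) * s) Φ ε0 hε0 (fun T hT h1 h2 => hbad T hT h1 h2) t ht0 ht1 ht2

theorem hasLAP_mono {X : Type} [NormedAddCommGroup X] [NormedSpace ℝ X] {a b : ℝ} (hab : a ≤ b)
    (h : HasLAP X (fun x => ‖x‖) a) : HasLAP X (fun x => ‖x‖) b := by
  intro K hK ε hε
  obtain ⟨u, h1, h2, h3⟩ := h K hK ε hε
  exact ⟨u, h1, fun x => (h2 x).trans (mul_le_mul_of_nonneg_right hab (norm_nonneg x)), h3⟩

/-- all the constants close to one, with a uniform gap -/
theorem main2 : ∃ lam0 c : ℝ, 1 < lam0 ∧ 0 < c ∧ ∀ lam : ℝ, 1 < lam → lam ≤ lam0 →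
    ∃ (E : Type) (_ : NormedAddCommGroup E) (_ : NormedSpace ℝ E) (_ : CompleteSpace E),
      (∀ Γ : Submodule ℝ (StrongDual ℝ E), FiniteDimensional ℝ Γ → ∀ β : ℝ, 0 < β →
        ((∃ N : Seminorm ℝ E, ∀ x, N x = preN Γ β x) ∧
          (∀ x, ‖x‖ ≤ (1 + 4 * β) * preN Γ β x ∧ preN Γ β x ≤ ‖x‖) ∧
          (∀ f : StrongDual ℝ E,
            IsLUB {t : ℝ | ∃ x, preN Γ β x ≤ 1 ∧ t = |f x|} (dualN Γ β f))) ∧
        HasLAP E (preN Γ β) lam) ∧
      ∀ mu : ℝ, mu < lam + c * (lam - 1) → ¬ HasLAP (StrongDual ℝ E) (fun f => ‖f‖) mu := by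
  obtain ⟨N, s, hN, hs0, hs1, hg, hb⟩ := exists_gap
  unfold Good at hb
  push Not at hb
  obtain ⟨Φ, ε0, hε0, hbad⟩ := hb
  have hk : 0 < (1 - s / 200) * s := mul_pos (by linarith) hs0
  set r0 : ℝ := min (1 / 4) (ε0 / 2) with hr0d
  have hr00 : 0 < r0 := lt_min (by norm_num) (by linarith)
  refine ⟨1 + (1 - s / 200) * s * r0, s / 400, by linarith [mul_pos hk hr00], by positivity, ?_⟩
  intro lam hlam1 hlam2
  obtain ⟨r, hr⟩ : ∃ r : ℝ, r = (lam - 1) / ((1 - s / 200) * s) := ⟨_, rfl⟩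
  have hr0 : 0 < r := by rw [hr]; exact div_pos (by linarith) hk
  have hrr0 : r ≤ r0 := by
    rw [hr, div_le_iff₀ hk]
    linarith
  have hr1 : r ≤ 1 / 4 := hrr0.trans (min_le_left _ _)
  have hrε : r < ε0 := lt_of_le_of_lt (hrr0.trans (min_le_right _ _)) (by linarith)
  have hlam : lam = 1 + (1 - s / 200) * (r * s) := by
    have h1 : r * ((1 - s / 200) * s) = lam - 1 := by rw [hr, div_mul_cancel₀ _ hk.ne']
    linarith
  obtain ⟨E, i1, i2, i3, h1, h2⟩ := core N s hN hs0 hs1 hg Φ ε0 hε0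
    (fun T hT h1 h2 => hbad T hT h1 h2) r hr0 hr1
  refine ⟨E, i1, i2, i3, ?_, ?_⟩
  · intro Γ hΓ β hβ
    obtain ⟨h3, h4⟩ := h1 Γ hΓ β hβ
    exact ⟨h3, hlam ▸ h4⟩
  · intro mu hmu hL
    have hrs : 0 < r * s := mul_pos hr0 hs0
    have h3 : lam + s / 400 * (lam - 1) < 1 + r * ((1 - s / 400) * s) := by
      rw [hlam]
      nlinarith [mul_pos hrs hs0, mul_pos (mul_pos hrs hs0) hs0]
    have h4 : r * ((1 - s / 400) * s) < ε0 := by
      have h5 : (1 - s / 400) * s ≤ 1 := by nlinarith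
      nlinarith
    have h5 : 0 < r * ((1 - s / 400) * s) := mul_pos hr0 (mul_pos (by linarith) hs0)
    refine h2 (max mu 1 - 1) (by linarith [le_max_right mu 1]) ?_ ?_ ?_
    · have : max mu 1 < 1 + r * ((1 - s / 400) * s) := max_lt (hmu.trans h3) (by linarith)
      linarith
    · have : max mu 1 < 1 + r * ((1 - s / 400) * s) := max_lt (hmu.trans h3) (by linarith)
      linarith
    · have e : 1 + (max mu 1 - 1) = max mu 1 := by ring
      rw [e]
      exact hasLAP_mono (le_max_left _ _) hL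

end Pool.Agent.Y620.DL
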